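import Pool.Agent.H45.SF.UT

/-!
# MP_3b3fc8_lc: the next stage (US)
-/

open Ordinal Cardinal Order Set
open scoped ZFSet

set_option autoImplicit false

namespace SF

namespace USx

theorem bmor_ext {A C : BA} {h k : BMor A C} (hk : ∀ x, h x = k x) : h = k := by
  rcases h with ⟨⟨h, h1, h2⟩, h3⟩
  rcases k with ⟨⟨k, k1, k2⟩, k3⟩
  have : h = k := funext hk
  subst this
  rfl

/-- the zero morphism -/
noncomputable def zro (A C : BA) : BMor A C where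
  f _ := ⊥
  inf _ _ := (inf_idem _).symm
  sup S := by
    symm
    rw [sSup_eq_bot]
    rintro _ ⟨_, _, rfl⟩
    rfl
  base x := (inf_bot_eq _).symm

theorem exists_pick {Y : BA} {I : Type 1} (C : I → Cd) (j : ∀ m, BMor (C m).v.A Y)
    (dis : ∀ a b, a ≠ b → j a ⊤ ⊓ j b ⊤ = ⊥) (ne : ∀ a, j a ⊤ ≠ ⊥) (c0 : Cd) :
    ∃ P : El Y.B → Σ c : Cd, BMor c.v.A Y, ∀ m, P (j m ⊤) = ⟨C m, j m⟩ := by
  classical
  refine ⟨fun s => if h : ∃ m, j m ⊤ = s then ⟨C h.choose, j h.choose⟩ else ⟨c0, zro _ _⟩,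
    fun m => ?_⟩
  have h : ∃ m', j m' ⊤ = j m ⊤ := ⟨m, rfl⟩
  have hc : h.choose = m := by
    by_contra hne
    have h1 := dis _ _ hne
    rw [h.choose_spec, inf_idem] at h1
    exact ne _ h1
  show (if h : ∃ m', j m' ⊤ = j m ⊤ then (⟨C h.choose, j h.choose⟩ : Σ c : Cd, BMor c.v.A Y)
    else ⟨c0, zro _ _⟩) = ⟨C m, j m⟩
  rw [dif_pos h, hc]

theorem bmap_le {N' N B : V} [IsCBA B] {b : El B} {σ : V → V → El B} (h : BMap N' N b σ)
    (x y : V) : σ x y ≤ b := by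
  by_cases h0 : σ x y = ⊥
  · rw [h0]; exact bot_le
  · rw [← h.tot x (h.dom x y h0).1]
    exact le_iSup (fun y => σ x y) y

section

variable {κ : Ordinal.{0}} {Z : BA} {i : ∀ v : Obj, BMor v.A Z} {N' N w p' p G' u0 : V}

/-- the data for one index -/
structure Dt {K : Kn κ i N' N w p' p G' u0} {n : ℕ} (T : Stg K n) (q : V) (s : El T.A.B)
    (c' : Cd) : Type 1 where
  ρ : BMor T.A (T.c s).v.A
  k : BMor (T.c s).v.A c'.v.A
  e : El c'.v.A.B
  τ : V → V → El c'.v.A.B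
  gρ : Good ρ
  ιρ : ∀ z, T.ι s (ρ z) = z ⊓ s
  ρι : ∀ x, ρ (T.ι s x) = x ⊓ ρ ⊤
  tr : IsTr c' (T.c s) k
  le : e ≤ k (ρ (T.σ (K.u (n + 1)) c'.code ⊓ s))
  pr : ∀ b', e ≤ k b' → ρ (T.σ (K.u (n + 1)) c'.code ⊓ s) ≤ b'
  map : BMap N' N e τ
  com : ∀ x ∈ K.G (n + 1), ∀ z, τ x z ≤ mkEl c'.v.A.B z
  keep : ∀ z, e ⊓ k (ρ (T.σ q z)) ≤ τ q z
  kp : e ≤ τ p' p
  kw : e ≤ τ w w1
  ku : e ≤ τ (K.u (n + 1)) c'.code

theorem exists_dt (hUE : T_UE) (hPB : T_PB) (hBR : T_BR) (hMB : T_MB) (hTU : T_TU)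
    {K : Kn κ i N' N w p' p G' u0} {n : ℕ} (T : Stg K n) (hp' : p' ∈ N')
    (hw : w ∈ N') (q : V) (hq : q ∈ N') (s : El T.A.B) (hs : s ∈ T.S) (c' : Cd)
    (hne : T.σ (K.u (n + 1)) c'.code ⊓ s ≠ ⊥) : Nonempty (Dt T q s c') := by
  have htop := T.top s hs
  obtain ⟨-, ρ, gρ, h1, h2, h3, -, -⟩ := hPB (T.c s).v.A T.A (T.ι s) (by
    intro z hz
    rw [htop] at hz
    exact T.onto s hs z hz)
  rw [htop] at h1 h2
  have mρ := (hMB _ _ ρ.toMor).1
  obtain ⟨a, ha⟩ : ∃ a, a = T.σ (K.u (n + 1)) c'.code ⊓ s := ⟨_, rfl⟩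
  have has : a ≤ s := ha ▸ inf_le_right
  rw [← ha] at hne
  have hb : ρ a ≠ ⊥ := by
    intro h0
    have h4 := h2 a
    rw [h0, inf_eq_left.2 has] at h4
    exact hne (h4 ▸ (hMB _ _ (T.ι s).toMor).2.1)
  have hbt : ρ a ≤ ρ ⊤ := mρ _ _ le_top
  have hτ := hBR T.A.B (T.c s).v.A.B N' N ⊤ T.σ ρ.toMor T.map (ρ a) hbt
  have hl : ∀ x ∈ [q, p', w, K.u (n + 1)], x ∈ N' := by
    intro x hx
    simp only [List.mem_cons, List.not_mem_nil, or_false] at hx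
    rcases hx with rfl | rfl | rfl | rfl
    · exact hq
    · exact hp'
    · exact hw
    · exact (K.mem (n + 1)).1
  have htup : tup [q, p', w, K.u (n + 1)] ∈ N' :=
    (hTU (T.c s).v.A.B (T.c s).v.A.B N' N _ _ _ _ (Mor.id _) K.np hτ hτ le_rfl _ hl).1
  have hval : ∀ x y, a ≤ T.σ x y → ρ (T.σ x y) ⊓ ρ a = ρ a := fun x y h =>
    inf_eq_right.2 (mρ _ _ h)
  have hρs : ∀ z, ρ z = ρ (z ⊓ s) := fun z => by rw [h1 z, h1 (z ⊓ s), inf_assoc, inf_idem]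
  obtain ⟨k, hk, e, τ', he, hpr, hτ', hcom, hkeep⟩ := hUE κ Z i N' N w p' p G' u0 K n (T.c s) c'
    (ρ a) _ hb hτ (hval _ _ (by rw [T.kp]; exact le_top)) (hval _ _ (by rw [T.kw]; exact le_top))
    (hval _ _ (has.trans (T.val s hs))) (hval _ _ (ha ▸ inf_le_left))
    (by
      intro x hx z
      refine inf_le_left.trans ?_
      rw [hρs]
      refine (mρ _ _ (T.com s hs x hx z)).trans ?_
      show ρ (T.ι s _) ≤ _
      rw [h3]
      exact inf_le_left)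
    (by
      intro r hr
      have h5 := ρ.base (acc w (ev w r G'))
      rw [T.sc r hr] at h5
      refine hbt.trans ?_
      show ρ ⊤ ≤ _
      have h6 : ρ.f ⊤ ≤ (T.c s).v.A.g (acc w (ev w r G')) := by
        rw [h5]; exact inf_le_left
      exact h6) _ htup
  have hmem := (hTU (T.c s).v.A.B c'.v.A.B N' N _ _ _ _ k.toMor K.np hτ hτ' he _ hl).2 hkeep
  have hkk : ∀ x ∈ [q, p', w, K.u (n + 1)], ∀ z, e ⊓ k (ρ (T.σ x z)) ≤ τ' x z := by
    intro x hx z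
    refine le_trans ?_ (hmem x hx z)
    show e ⊓ k (ρ (T.σ x z)) ≤ e ⊓ k (ρ (T.σ x z) ⊓ ρ a)
    rw [k.inf]
    exact le_inf inf_le_left (le_inf inf_le_right (inf_le_left.trans he))
  have mk := (hMB _ _ k.toMor).1
  have hfull : ∀ x ∈ [q, p', w, K.u (n + 1)], ∀ z, a ≤ T.σ x z → e ≤ τ' x z := by
    intro x hx z h
    exact le_trans (le_inf le_rfl (he.trans (mk _ _ (mρ _ _ h)))) (hkk x hx z)
  subst ha
  exact ⟨{
    ρ := ρ
    k := k
    e := e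
    τ := τ'
    gρ := gρ
    ιρ := h2
    ρι := h3
    tr := hk
    le := he
    pr := hpr
    map := hτ'
    com := hcom
    keep := hkk q (by simp)
    kp := hfull p' (by simp) p (by rw [T.kp]; exact le_top)
    kw := hfull w (by simp) w1 (by rw [T.kw]; exact le_top)
    ku := hfull _ (by simp) _ inf_le_left }⟩

/-- the indices -/
abbrev Ix {K : Kn κ i N' N w p' p G' u0} {n : ℕ} (T : Stg K n) : Type 1 :=
  {m : El T.A.B × Cd // m.1 ∈ T.S ∧ T.σ (K.u (n + 1)) m.2.code ⊓ m.1 ≠ ⊥}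

/-- the value of an index -/
noncomputable def av {K : Kn κ i N' N w p' p G' u0} {n : ℕ} (T : Stg K n) (m : Ix T) : El T.A.B :=
  T.σ (K.u (n + 1)) m.1.2.code ⊓ m.1.1

theorem av_dis (hUA : T_UA) {K : Kn κ i N' N w p' p G' u0} {n : ℕ} (T : Stg K n) (a b : Ix T)
    (hab : a ≠ b) : av T a ⊓ av T b = ⊥ := by
  rcases a with ⟨⟨s, c⟩, hs, ha⟩
  rcases b with ⟨⟨t, d⟩, ht, hb⟩
  show (T.σ (K.u (n + 1)) c.code ⊓ s) ⊓ (T.σ (K.u (n + 1)) d.code ⊓ t) = ⊥
  rw [inf_inf_inf_comm]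
  by_cases hst : s = t
  · by_cases hcd : c.code = d.code
    · have := hUA.2.1 c d hcd
      subst this
      subst hst
      exact (hab rfl).elim
    · rw [T.map.fn _ _ _ hcd, bot_inf_eq]
  · rw [T.dis s hs t ht hst, inf_bot_eq]

theorem code_mem {K : Kn κ i N' N w p' p G' u0} {n : ℕ} (T : Stg K n) (c : Cd)
    (h : T.σ (K.u (n + 1)) c.code ≠ ⊥) : c.code ∈ V_ κ := by
  have ht : (⊤ : El T.A.B) ≠ ⊥ := fun h0 => h (by
    rw [← le_bot_iff, ← h0]; exact le_top)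
  obtain ⟨c2, h1, h2, -⟩ := K.k1 T.A ⊤ T.σ T.map ht T.kp (n + 1) c.code h
  rwa [← h2]

theorem exists_idx {K : Kn κ i N' N w p' p G' u0} {n : ℕ} (T : Stg K n) (x : El T.A.B)
    (hx : x ≠ ⊥) : ∃ m : Ix T, x ⊓ av T m ≠ ⊥ := by
  have h1 : ∃ s ∈ T.S, x ⊓ s ≠ ⊥ := by
    by_contra hcon
    push Not at hcon
    apply hx
    have h2 : x ⊓ sSup T.S = ⊥ := by
      rw [inf_sSup_eq]
      simp only [iSup_eq_bot]
      exact hcon
    rwa [T.sup, inf_top_eq] at h2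
  obtain ⟨s, hs, hxs⟩ := h1
  have h2 : ∃ y, (x ⊓ s) ⊓ T.σ (K.u (n + 1)) y ≠ ⊥ := by
    by_contra hcon
    push Not at hcon
    apply hxs
    have h3 : (x ⊓ s) ⊓ ⨆ y, T.σ (K.u (n + 1)) y = ⊥ := by
      rw [inf_iSup_eq]
      simp only [iSup_eq_bot]
      exact hcon
    rwa [T.map.tot _ (K.mem (n + 1)).1, inf_top_eq] at h3
  obtain ⟨y, hy⟩ := h2
  have hy2 : T.σ (K.u (n + 1)) y ≠ ⊥ := fun h => hy (by rw [h, inf_bot_eq])
  have ht : (⊤ : El T.A.B) ≠ ⊥ := fun h0 => hy2 (by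
    rw [← le_bot_iff, ← h0]; exact le_top)
  obtain ⟨c, -, h3, -⟩ := K.k1 T.A ⊤ T.σ T.map ht T.kp (n + 1) y hy2
  subst h3
  have h4 : x ⊓ (T.σ (K.u (n + 1)) c.code ⊓ s) ≠ ⊥ := by
    rwa [inf_comm (T.σ _ _) s, ← inf_assoc]
  exact ⟨⟨(s, c), hs, fun h => h4 (by
    show x ⊓ (T.σ (K.u (n + 1)) c.code ⊓ s) = ⊥
    rw [h, inf_bot_eq])⟩, h4⟩

theorem av_le {K : Kn κ i N' N w p' p G' u0} {n : ℕ} (T : Stg K n) (m : Ix T) :
    av T m ≤ m.1.1 := inf_le_right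

theorem main (hUA : T_UA) (hUV : T_UV) (hPR : T_PR) (hBJ : T_BJ)
    (hBR : T_BR) (hJM : T_JM) (hG1 : T_G1) (hG2 : T_G2) (hMB : T_MB)
    (hκ : Inac κ) {K : Kn κ i N' N w p' p G' u0} {n : ℕ} (T : Stg K n) (q : V)
    (D : ∀ m : Ix T, Dt T q m.1.1 m.1.2) :
    ∃ (T' : Stg K (n + 1)) (f : BMor T.A T'.A), StgLe T T' f q := by
  classical
  obtain ⟨v1, -, -, -, -, -, v7, -, v9, v10, -, -⟩ := hUV κ hκ
  have av_ne : ∀ m : Ix T, av T m ≠ ⊥ := fun m => m.2.2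
  have cκ : ∀ m : Ix T, m.1.2.code ∈ V_ κ := fun m =>
    code_mem T m.1.2 fun h => m.2.2 (by rw [h, bot_inf_eq])
  have ha2 : ∀ m : Ix T, T.ι m.1.1 ((D m).ρ (av T m)) = av T m := fun m => by
    rw [(D m).ιρ]; exact inf_eq_left.2 (av_le T m)
  have ρne : ∀ m : Ix T, (D m).ρ (av T m) ≠ ⊥ := by
    intro m h0
    have h1 := ha2 m
    rw [h0] at h1
    exact av_ne m (h1 ▸ (hMB _ _ (T.ι m.1.1).toMor).2.1)
  have ene : ∀ m : Ix T, (D m).e ≠ ⊥ := by
    intro m h0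
    exact ρne m (le_bot_iff.1 ((D m).pr ⊥ (by rw [h0]; exact bot_le)))
  have inj : Function.Injective fun m : Ix T => (av T m).val := by
    intro a b hab
    by_contra hne
    have h1 := av_dis hUA T a b hne
    have h2 : av T a = av T b := El.ext hab
    rw [h2, inf_idem] at h1
    exact av_ne b h1
  obtain ⟨ρ0, hρ0, -, h7a, h7b⟩ := v7 (Ix T) (fun m => (av T m).val) (fun m => m.1.2.v.A.B) inj
    T.A.B T.rank (fun m => (av T m).mem) (fun m => ((v9 _).1 ((v10 _).1 (cκ m))).1)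
  obtain ⟨Y, j, hPrd, hY⟩ := hPR (Ix T) (fun m => m.1.2.v.A) (fun m => (D m).e)
    (fun m => (av T m).val) ρ0 inj h7a h7b
  have mj : ∀ m : Ix T, ∀ x y, x ≤ y → j m x ≤ j m y := fun m => (hMB _ _ (j m).toMor).1
  have mk : ∀ m : Ix T, ∀ x y, x ≤ y → (D m).k x ≤ (D m).k y :=
    fun m => (hMB _ _ (D m).k.toMor).1
  have mρ : ∀ m : Ix T, ∀ x y, x ≤ y → (D m).ρ x ≤ (D m).ρ y :=
    fun m => (hMB _ _ (D m).ρ.toMor).1
  have jt : ∀ m : Ix T, j m (D m).e = j m ⊤ := fun m => by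
    have := hPrd.res m ⊤
    rw [top_inf_eq] at this
    exact this.symm
  have jne : ∀ m : Ix T, j m ⊤ ≠ ⊥ := fun m h => by
    have := hPrd.inj m ⊤ h
    rw [top_inf_eq] at this
    exact ene m this
  have hgood : ∀ m : Ix T, Good (((D m).ρ.comp (D m).k).comp (j m)) := fun m =>
    hG1 _ _ _ _ _ (hG1 _ _ _ _ _ (D m).gρ (D m).tr.good) (hG2 _ _ _ fun c hc => by
      obtain ⟨x, -, hx⟩ := hPrd.onto m c hc
      exact ⟨x, hx⟩)
  obtain ⟨f, hf0, gf⟩ := hJM (Ix T) T.A Y (fun m => ((D m).ρ.comp (D m).k).comp (j m))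
    (fun a b hab => by
      rw [← le_bot_iff, ← hPrd.dis a b hab]
      exact inf_le_inf (mj a _ _ le_top) (mj b _ _ le_top)) hgood
  have hf : ∀ x, f x = ⨆ m, j m ((D m).k ((D m).ρ x)) := hf0
  have hlow : ∀ m x, j m ((D m).k ((D m).ρ x)) ≤ f x := fun m x => by
    rw [hf]; exact le_iSup (fun m => j m ((D m).k ((D m).ρ x))) m
  have hfm : ∀ m x, f x ⊓ j m ⊤ = j m ((D m).k ((D m).ρ x)) := by
    intro m x
    refine le_antisymm ?_ (le_inf (hlow m x) (mj m _ _ le_top))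
    rw [hf, iSup_inf_eq]
    refine iSup_le fun m' => ?_
    by_cases h : m' = m
    · subst h; exact inf_le_left
    · refine le_trans ?_ bot_le
      rw [← hPrd.dis m' m h]
      exact inf_le_inf_right _ (mj m' _ _ le_top)
  have ele : ∀ m : Ix T, (D m).e ≤ (D m).k ((D m).ρ (av T m)) := fun m => (D m).le
  have jlow : ∀ m x, av T m ≤ x → j m ⊤ ≤ f x := fun m x h => by
    rw [← jt]
    exact (mj m _ _ ((ele m).trans (mk m _ _ (mρ m _ _ h)))).trans (hlow m x)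
  have funit : f ⊤ = ⊤ := by
    rw [← top_le_iff, ← hPrd.top]
    exact iSup_le fun m => jlow m _ le_top
  obtain ⟨σ', hσ'⟩ : ∃ σ' : V → V → El Y.B, σ' = fun x y => ⨆ m : Ix T,
    j m ((D m).τ x y) ⊓ j m (D m).e := ⟨_, rfl⟩
  have hmap : BMap N' N ⊤ σ' := by
    have h1 := hBJ Y.B N' N (Ix T) (fun m => j m (D m).e)
      (fun m x y => j m ((D m).τ x y) ⊓ j m (D m).e) (fun a b hab => by
        rw [jt, jt]; exact hPrd.dis a b hab) (fun m => hBR _ _ N' N (D m).e (D m).τ (j m).toMor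
          (D m).map (j m (D m).e) le_rfl)
    have h2 : (⨆ m, j m (D m).e) = ⊤ := by
      rw [← hPrd.top]
      exact iSup_congr jt
    rw [h2] at h1
    rw [hσ']
    exact h1
  have σlow : ∀ m x y, j m ((D m).τ x y) ⊓ j m ⊤ ≤ σ' x y := fun m x y => by
    rw [hσ', ← jt]
    exact le_iSup (fun m : Ix T => j m ((D m).τ x y) ⊓ j m (D m).e) m
  have σtop : ∀ x y, (∀ m, (D m).e ≤ (D m).τ x y) → σ' x y = ⊤ := by
    intro x y h
    rw [← top_le_iff, ← hPrd.top]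
    refine iSup_le fun m => le_trans (le_inf ?_ le_rfl) (σlow m x y)
    rw [← jt]
    exact mj m _ _ (h m)
  have σm : ∀ m x y, σ' x y ⊓ j m ⊤ ≤ j m ((D m).τ x y) := by
    intro m x y
    rw [hσ', iSup_inf_eq]
    refine iSup_le fun m' => ?_
    by_cases h : m' = m
    · subst h; exact inf_le_left.trans inf_le_left
    · refine le_trans ?_ bot_le
      rw [← hPrd.dis m' m h]
      exact inf_le_inf_right _ (inf_le_left.trans (mj m' _ _ le_top))
  obtain ⟨P, hP⟩ := exists_pick (fun m : Ix T => m.1.2) j hPrd.dis jne (T.c ⊤)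
  have hbase : ∀ x, T.A.g x = ⊤ → Y.g x = ⊤ := by
    intro x hx
    have h1 := f.base x
    have h2 : f.f ⊤ = ⊤ := funit
    rw [hx, h2, inf_top_eq] at h1
    exact h1.symm
  have hbas : (bas T.A).comp f = bas Y := by
    refine bmor_ext fun x => ?_
    show f.f (T.A.g x) = Y.g x
    have h2 : f.f ⊤ = ⊤ := funit
    rw [f.base, h2, inf_top_eq]
  have hind : ∀ (Q : (s : El Y.B) → (Σ c : Cd, BMor c.v.A Y) → Prop),
      (∀ m : Ix T, Q (j m ⊤) ⟨m.1.2, j m⟩) → ∀ s ∈ Set.range (fun m : Ix T => j m ⊤),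
        Q s (P s) := by
    rintro Q h _ ⟨m, rfl⟩
    show Q (j m ⊤) (P (j m ⊤))
    rw [hP m]
    exact h m
  let T' : Stg K (n + 1) :=
    { A := Y
      σ := σ'
      S := Set.range fun m : Ix T => j m ⊤
      c := fun s => (P s).1
      ι := fun s => (P s).2
      map := hmap
      kp := σtop _ _ fun m => (D m).kp
      kw := σtop _ _ fun m => (D m).kw
      sc := fun r hr => hbase _ (T.sc r hr)
      rank := by
        have h1 := v1 ρ0 hρ0
        rw [ZFSet.mem_vonNeumann] at hY ⊢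
        exact hY.trans h1
      good := hbas ▸ hG1 _ _ _ _ _ T.good gf
      cκ := hind (fun _ x => x.1.code ∈ V_ κ) cκ
      top := hind (fun s x => x.2 ⊤ = s) fun _ => rfl
      onto := hind (fun s x => ∀ z ≤ s, ∃ y, x.2 y = z) fun m z hz => by
        obtain ⟨x, -, hx⟩ := hPrd.onto m z hz
        exact ⟨x, hx⟩
      ne := by
        rintro _ ⟨m, rfl⟩
        exact jne m
      dis := by
        rintro _ ⟨a, rfl⟩ _ ⟨b, rfl⟩ hab
        exact hPrd.dis a b fun h => hab (by rw [h])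
      sup := by
        rw [sSup_range]
        exact hPrd.top
      val := hind (fun s x => s ≤ σ' (K.u (n + 1)) x.1.code) fun m => by
        refine le_trans (le_inf ?_ le_rfl) (σlow m _ _)
        rw [← jt]
        exact mj m _ _ (D m).ku
      com := hind (fun s x => ∀ y ∈ K.G (n + 1), ∀ z, σ' y z ⊓ s ≤ x.2 (mkEl x.1.v.A.B z))
        fun m y hy z => (σm m y z).trans (mj m _ _ ((D m).com y hy z)) }
  refine ⟨T', f, ?_⟩
  refine
    { good := gf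
      unit := funit
      inj := ?_
      keep := ?_
      link := ?_ }
  · intro x hx
    by_contra hne
    obtain ⟨m, hm⟩ := exists_idx T x hne
    have h1 : j m ((D m).k ((D m).ρ x)) = ⊥ := by
      rw [← le_bot_iff, ← hx]
      exact hlow m x
    have h2 := hPrd.inj m _ h1
    have h3 : (D m).e ≤ (D m).k (((D m).ρ x)ᶜ) := by
      rw [(hMB _ _ (D m).k.toMor).2.2.2.1]
      refine le_inf (le_compl_iff_disjoint_left.2 (disjoint_iff.2 h2)) ?_
      exact (ele m).trans (mk m _ _ le_top)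
    have h4 := (D m).pr _ h3
    have h5 : (D m).ρ x ⊓ (D m).ρ (av T m) = ⊥ :=
      disjoint_iff.1 (le_compl_iff_disjoint_left.1 h4)
    have h6 : (D m).ρ (x ⊓ av T m) = ⊥ := by
      rw [(D m).ρ.inf]
      exact h5
    have h7 := (D m).ιρ (x ⊓ av T m)
    rw [h6, inf_eq_left.2 (inf_le_right.trans (av_le T m))] at h7
    exact hm (h7 ▸ (hMB _ _ (T.ι m.1.1).toMor).2.1)
  · intro z
    rw [hf]
    refine iSup_le fun m => ?_
    have h1 : j m ((D m).k ((D m).ρ (T.σ q z))) =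
        j m ((D m).e ⊓ (D m).k ((D m).ρ (T.σ q z))) := by
      rw [hPrd.res m ((D m).k ((D m).ρ (T.σ q z))), inf_comm]
    refine le_trans (le_inf ?_ (mj m _ _ le_top)) (σlow m q z)
    rw [h1]
    exact mj m _ _ ((D m).keep z)
  · intro s hs s' hs'
    revert s'
    refine hind (fun s' x => f s ⊓ s' ≠ ⊥ → s' ≤ f s ∧ ∃ k : BMor (T.c s).v.A x.1.v.A,
      IsTr x.1 (T.c s) k ∧ ∀ y, f (T.ι s y) ⊓ s' = x.2 (k y)) fun m hne => ?_
    have hsm : s = m.1.1 := by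
      by_contra h
      apply hne
      rw [hfm]
      have h1 : (D m).ρ s = ⊥ := by
        have h2 := (D m).ρι ((D m).ρ s)
        have h3 := (D m).ιρ s
        rw [T.dis s hs m.1.1 m.2.1 h] at h3
        rw [h3] at h2
        have h4 : (D m).ρ s ≤ (D m).ρ ⊤ := mρ m _ _ le_top
        rw [inf_eq_left.2 h4] at h2
        rw [← h2]
        exact (hMB _ _ (D m).ρ.toMor).2.1
      rw [h1]
      have h5 : (D m).k ⊥ = ⊥ := (hMB _ _ (D m).k.toMor).2.1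
      rw [h5]
      exact (hMB _ _ (j m).toMor).2.1
    subst hsm
    refine ⟨jlow m _ (av_le T m), (D m).k, (D m).tr, fun y => ?_⟩
    rw [hfm, (D m).ρι]
    have h1 : (D m).k (y ⊓ (D m).ρ ⊤) = (D m).k y ⊓ (D m).k ((D m).ρ ⊤) := (D m).k.inf _ _
    rw [h1, hPrd.res m, hPrd.res m ((D m).k y), inf_assoc]
    congr 2
    exact inf_eq_right.2 ((ele m).trans (mk m _ _ (mρ m _ _ le_top)))

end

/-- US. The next stage. -/
theorem us (hUA : T_UA) (hUV : T_UV) (hUE : T_UE) (hPR : T_PR) (hPB : T_PB) (hBJ : T_BJ)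
    (hBR : T_BR) (hJM : T_JM) (hG1 : T_G1) (hG2 : T_G2) (hMB : T_MB) (hTU : T_TU) : T_US := by
  intro κ Z i hκ N' N w p' p G' u0 K n T hp' hw q hq
  classical
  exact main hUA hUV hPR hBJ hBR hJM hG1 hG2 hMB hκ T q fun m =>
    (exists_dt hUE hPB hBR hMB hTU T hp' hw q hq m.1.1 m.2.1 m.1.2 m.2.2).some

end USx

end SF
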